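import Pool.Agent.K7.H28.SM.M1

/-!
Symplectic forms in affine spaces of closed two-forms which differ by forms of rank two.
-/

set_option autoImplicit false

open Set Filter Topology MeasureTheory
open scoped Manifold ContDiff

noncomputable section

namespace Pool.Agent.K7.H28.SM

open Pool.Agent.R772

section lin

variable {V : Type} [AddCommGroup V] [Module ℝ V] [TopologicalSpace V]
  [IsTopologicalAddGroup V] [ContinuousSMul ℝ V]

omit [IsTopologicalAddGroup V] [ContinuousSMul ℝ V] in
theorem wedge_upd {n : ℕ} (s : Fin n → V [⋀^Fin 2]→L[ℝ] ℝ) (k : Fin n)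
    (x y : V [⋀^Fin 2]→L[ℝ] ℝ) (c : ℝ) (e : Fin n × Fin 2 → V) :
    wedge (Function.update s k (x + c • y)) e =
      wedge (Function.update s k x) e + c * wedge (Function.update s k y) e := by
  classical
  unfold wedge
  rw [Finset.mul_sum, ← Finset.sum_add_distrib]
  refine Finset.sum_congr rfl fun π _ => ?_
  have h : ∀ z : V [⋀^Fin 2]→L[ℝ] ℝ,
      ∏ l, (Function.update s k z) l ![e (π (l, 0)), e (π (l, 1))] =
        z ![e (π (k, 0)), e (π (k, 1))] *
          ∏ l ∈ Finset.univ.erase k, s l ![e (π (l, 0)), e (π (l, 1))] := by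
    intro z
    rw [← Finset.mul_prod_erase Finset.univ _ (Finset.mem_univ k), Function.update_self]
    congr 1
    refine Finset.prod_congr rfl fun l hl => ?_
    rw [Function.update_of_ne (Finset.ne_of_mem_erase hl)]
  rw [h, h, h]
  have h2 : (x + c • y) ![e (π (k, 0)), e (π (k, 1))] =
      x ![e (π (k, 0)), e (π (k, 1))] + c * y ![e (π (k, 0)), e (π (k, 1))] := rfl
  rw [h2]
  ring

omit [IsTopologicalAddGroup V] [ContinuousSMul ℝ V] in
theorem wedge_cons_rk2 {m : ℕ} {b : V [⋀^Fin 2]→L[ℝ] ℝ} (h : Rk2 b)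
    (a : V [⋀^Fin 2]→L[ℝ] ℝ) (t : ℝ) (e : Fin (m + 1) × Fin 2 → V) :
    wedge (Fin.cons b (fun _ : Fin m => a + t • b)) e =
      wedge (Fin.cons b (fun _ : Fin m => a)) e := by
  classical
  have key : ∀ T : Finset (Fin m),
      wedge (Fin.cons b (fun k : Fin m => if k ∈ T then a else a + t • b)) e =
        wedge (Fin.cons b (fun _ : Fin m => a + t • b)) e := by
    intro T
    induction T using Finset.induction_on with
    | empty => simp
    | insert k T hk ih =>
      rw [← ih]
      set s : Fin (m + 1) → V [⋀^Fin 2]→L[ℝ] ℝ :=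
        Fin.cons b (fun k : Fin m => if k ∈ T then a else a + t • b) with hs
      have e1 : (Fin.cons b (fun l : Fin m => if l ∈ insert k T then a else a + t • b) :
          Fin (m + 1) → V [⋀^Fin 2]→L[ℝ] ℝ) = Function.update s k.succ a := by
        funext l
        refine Fin.cases ?_ (fun l => ?_) l
        · rw [Function.update_of_ne (Fin.succ_ne_zero k).symm]
          rfl
        · by_cases hl : l = k
          · subst hl
            rw [Function.update_self, Fin.cons_succ, if_pos (Finset.mem_insert_self l T)]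
          · rw [Function.update_of_ne (fun h => hl (Fin.succ_injective m h)), hs, Fin.cons_succ,
              Fin.cons_succ]
            by_cases hlT : l ∈ T
            · rw [if_pos (Finset.mem_insert_of_mem hlT), if_pos hlT]
            · rw [if_neg hlT, if_neg fun h => (Finset.mem_insert.1 h).elim hl hlT]
      have e2 : s = Function.update s k.succ (a + t • b) := by
        rw [eq_comm, Function.update_eq_self_iff, hs, Fin.cons_succ, if_neg hk]
      rw [e1]
      conv_rhs => rw [e2]
      rw [wedge_upd]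
      have e3 : wedge (Function.update s k.succ b) e = 0 := by
        refine wedge_rk2 h _ (i := 0) (j := k.succ) (Fin.succ_ne_zero k).symm ?_ ?_ e
        · rw [Function.update_of_ne (Fin.succ_ne_zero k).symm, hs, Fin.cons_zero]
        · rw [Function.update_self]
      rw [e3, mul_zero, add_zero]
  have h1 := key Finset.univ
  simp only [Finset.mem_univ, if_true] at h1
  exact h1.symm

omit [IsTopologicalAddGroup V] [ContinuousSMul ℝ V] in
theorem wedge_expand {m : ℕ} {b : V [⋀^Fin 2]→L[ℝ] ℝ} (h : Rk2 b)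
    (a : V [⋀^Fin 2]→L[ℝ] ℝ) (e : Fin (m + 1) × Fin 2 → V) :
    wedge (fun _ : Fin (m + 1) => a + b) e = wedge (fun _ : Fin (m + 1) => a) e +
      (m + 1 : ℝ) * wedge (Fin.cons b (fun _ : Fin m => a)) e := by
  set κ : ℝ := (m + 1 : ℝ) * wedge (Fin.cons b (fun _ : Fin m => a)) e with hκ
  have h1 : ∀ t : ℝ, HasDerivAt
      (fun t : ℝ => wedge (fun _ : Fin (m + 1) => a + t • b) e - t * κ) 0 t := by
    intro t
    have h2 := (hasDerivAt_wedge (m := m) a b e t).sub ((hasDerivAt_id t).mul_const κ)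
    have h3 : (m + 1 : ℝ) * wedge (Fin.cons b (fun _ : Fin m => a + t • b)) e - 1 * κ = 0 := by
      rw [wedge_cons_rk2 h, hκ]
      ring
    rw [h3] at h2
    exact h2
  have h2 := is_const_of_deriv_eq_zero (fun t => (h1 t).differentiableAt)
    (fun t => (h1 t).deriv) 1 0
  simp only [one_smul, zero_smul, add_zero, one_mul, zero_mul, sub_zero] at h2
  linarith

end lin

section

open Pool.Agent.Y501.SY

variable {d m : ℕ} {X : Type} [TopologicalSpace X] [ChartedSpace (E d) X]

theorem td_eq_md (vol : Top d m X) (σ : Form d X 2) : td vol σ = md vol σ σ := by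
  funext x
  unfold td md
  congr 1
  funext k
  refine Fin.cases ?_ (fun k => ?_) k
  · rfl
  · rfl

theorem td_expand (hd : d = 2 * (m + 1)) {vol : Top d m X} (hvol : IsVol vol)
    (σ ρ : Form d X 2) (x : X) (h : Rk2 (V := TangentSpace (𝓡 d) x) (ρ x)) :
    td vol (σ + ρ) x = td vol σ x + (m + 1 : ℝ) * md vol σ ρ x := by
  obtain ⟨f, hf⟩ := hvol.frame x
  have h1 := wedge_expand (m := m) h (σ x) f
  rw [md_spec hd hvol, td_spec hd hvol σ] at h1
  have h2 : wedge (fun _ : Fin (m + 1) => σ x + ρ x) f = td vol (σ + ρ) x * vol x f :=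
    td_spec hd hvol (σ + ρ) x f
  rw [h2] at h1
  have h3 : td vol (σ + ρ) x * vol x f =
      (td vol σ x + (m + 1 : ℝ) * md vol σ ρ x) * vol x f := by
    rw [h1]
    ring
  exact mul_right_cancel₀ hf.ne' h3

variable [IsManifold (𝓡 d) ∞ X]

theorem transport [CompactSpace X] [T2Space X] [MeasurableSpace X] [BorelSpace X]
    (hd : d = 2 * (m + 1)) {vol : Top d m X} (hvol : IsVol vol) {σ : Form d X 2}
    (hσ : IsSmooth σ) (S : Submodule ℝ (Form d X 2)) (hS : ∀ ρ ∈ S, IsSmooth ρ)
    (hS2 : ∀ ρ ∈ S, ∀ x, Rk2 (V := TangentSpace (𝓡 d) x) (ρ x)) :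
    (∃ ρ ∈ S, ∀ x, PosTop vol (σ + ρ) x) ↔ ∀ μ : Measure X, IsProbabilityMeasure μ →
      (∀ ρ ∈ S, ∫ x, md vol σ ρ x ∂μ = 0) → 0 < ∫ x, td vol σ x ∂μ := by
  have hm : (0 : ℝ) < m + 1 := by positivity
  have hcσ : Continuous (td vol σ) := by
    rw [td_eq_md]
    exact md_cont hd hvol hσ hσ
  constructor
  · rintro ⟨ρ, hρ, hpos⟩ μ hμ hann
    have hc : Continuous (td vol (σ + ρ)) := by
      rw [td_eq_md]
      exact md_cont hd hvol (hσ.add (hS ρ hρ)) (hσ.add (hS ρ hρ))
    have hne : Nonempty X := by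
      by_contra hne
      rw [not_nonempty_iff] at hne
      have h1 : μ univ = 1 := measure_univ
      rw [Set.univ_eq_empty_iff.2 hne, measure_empty] at h1
      exact zero_ne_one h1
    obtain ⟨x₀, -, hx₀⟩ := isCompact_univ.exists_isMinOn univ_nonempty hc.continuousOn
    have hp0 : 0 < td vol (σ + ρ) x₀ := (posTop_iff hd hvol _ _).1 (hpos x₀)
    have hi1 : Integrable (td vol σ) μ :=
      hcσ.integrable_of_hasCompactSupport (HasCompactSupport.of_compactSpace _)
    have hcm : Continuous (md vol σ ρ) := md_cont hd hvol hσ (hS ρ hρ)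
    have hi2 : Integrable (md vol σ ρ) μ :=
      hcm.integrable_of_hasCompactSupport (HasCompactSupport.of_compactSpace _)
    have hi3 : Integrable (td vol (σ + ρ)) μ :=
      hc.integrable_of_hasCompactSupport (HasCompactSupport.of_compactSpace _)
    have h1 : ∫ x, td vol (σ + ρ) x ∂μ = ∫ x, td vol σ x ∂μ := by
      have h2 : (fun x => td vol (σ + ρ) x) =
          fun x => td vol σ x + (m + 1 : ℝ) * md vol σ ρ x :=
        funext fun x => td_expand hd hvol σ ρ x (hS2 ρ hρ x)
      rw [h2, integral_add hi1 (hi2.const_mul _), integral_const_mul, hann ρ hρ, mul_zero,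
        add_zero]
    rw [← h1]
    refine lt_of_lt_of_le hp0 ?_
    have h2 : ∫ _x : X, td vol (σ + ρ) x₀ ∂μ ≤ ∫ x, td vol (σ + ρ) x ∂μ :=
      integral_mono (integrable_const _) hi3 fun x => hx₀ (mem_univ x)
    rw [integral_const, probReal_univ, one_smul] at h2
    exact h2
  · intro h
    by_contra hcon
    push Not at hcon
    let S' : Submodule ℝ (X → ℝ) :=
      { carrier := {f | ∃ ρ ∈ S, f = md vol σ ρ}
        add_mem' := by
          rintro _ _ ⟨ρ, hρ, rfl⟩ ⟨ρ', hρ', rfl⟩
          refine ⟨ρ + ρ', S.add_mem hρ hρ', ?_⟩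
          funext x
          exact (md_add hd hvol σ ρ ρ' x).symm
        zero_mem' := by
          refine ⟨0, S.zero_mem, ?_⟩
          funext x
          have h1 := md_smul hd hvol σ (0 : Form d X 2) 0 x
          rw [zero_smul, zero_mul] at h1
          exact h1.symm
        smul_mem' := by
          rintro c _ ⟨ρ, hρ, rfl⟩
          refine ⟨c • ρ, S.smul_mem c hρ, ?_⟩
          funext x
          exact (md_smul hd hvol σ ρ c x).symm }
    obtain ⟨μ, hμf, hμ0, -, hμS, hμz⟩ := sep_measure (isCompact_univ (X := X)) S'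
      (by
        rintro _ ⟨ρ, hρ, rfl⟩
        exact md_cont hd hvol hσ (hS ρ hρ))
      (td vol σ) hcσ (by
        rintro _ ⟨ρ, hρ, rfl⟩ hall
        obtain ⟨x, hx⟩ := hcon (((m : ℝ) + 1)⁻¹ • ρ) (S.smul_mem _ hρ)
        apply hx
        rw [posTop_iff hd hvol, td_expand hd hvol σ _ x (hS2 _ (S.smul_mem _ hρ) x),
          md_smul hd hvol, ← mul_assoc, mul_inv_cancel₀ hm.ne', one_mul]
        exact hall x (mem_univ x))
    have hu0 : μ univ ≠ 0 := fun h0 => hμ0 (Measure.measure_univ_eq_zero.1 h0)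
    have hut : μ univ ≠ ⊤ := measure_ne_top μ univ
    have hprob : IsProbabilityMeasure ((μ univ)⁻¹ • μ) := by
      refine ⟨?_⟩
      rw [Measure.smul_apply, smul_eq_mul, ENNReal.inv_mul_cancel hu0 hut]
    have h1 := h ((μ univ)⁻¹ • μ) hprob (fun ρ hρ => by
      rw [integral_smul_measure, hμS _ ⟨ρ, hρ, rfl⟩, smul_zero])
    rw [integral_smul_measure, smul_eq_mul] at h1
    have h2 : 0 ≤ ((μ univ)⁻¹).toReal := ENNReal.toReal_nonneg
    have h3 := mul_nonneg h2 (neg_nonneg.2 hμz)
    linarith

end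

end Pool.Agent.K7.H28.SM
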