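import Pool.Agent.K7.H28.SM.PubM
import Pool.Agent.K7.H28.SM.M2
import Pool.Agent.R772.BridgeK

/-!
Linear spaces of closed two-forms of rank two: comparison of the definitions.
-/

set_option autoImplicit false

open Set Filter Topology MeasureTheory
open scoped Manifold ContDiff

noncomputable section

namespace Pool.Agent.K7.H28.SMP

open Pool.Agent.Y501.SYP
open Pool.Agent.R772.SYK
open Pool.Agent.Y501
open Pool.Agent

section

variable {m d : ℕ} {X : Type} [TopologicalSpace X] [ChartedSpace (ES d) X]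

attribute [local instance] Pool.Agent.Y501.SYP.cs
attribute [local instance] Pool.Agent.Y501.SYP.mf

theorem closed_add {σ ρ : Form (ES d) X 2} (hσ : IsClosed2 σ) (hρ : IsClosed2 ρ)
    [IsManifold 𝓘(ℝ, ES d) ∞ X] : IsClosed2 (addF σ ρ) := by
  have h1 := (smooth_iff σ).1 hσ.smooth
  have h2 := (smooth_iff ρ).1 hρ.smooth
  have h3 := (closed_iff σ).1 hσ.closed
  have h4 := (closed_iff ρ).1 hρ.closed
  have h5 := h3.add h4 h1 h2
  rw [add_zero] at h5
  exact ⟨(smooth_iff (addF σ ρ)).2 (h1.add h2), (closed_iff (addF σ ρ)).2 h5⟩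

theorem transportCriterion (hd : d = 2 * (m + 1)) [IsManifold 𝓘(ℝ, ES d) ∞ X] [CompactSpace X]
    [T2Space X] [MeasurableSpace X] [BorelSpace X] (vol : TopForm (ES d) X m)
    (hvol : IsVolume vol) (σ : Form (ES d) X 2) (hσ : IsClosed2 σ)
    (S : Set (Form (ES d) X 2)) (hS : IsSpace S) :
    (∃ ρ ∈ S, IsPosSymplectic vol (addF σ ρ)) ↔ ∀ μ : Measure X, IsProbabilityMeasure μ →
      Annihilates μ vol σ S → 0 < ∫ x, topDens vol σ x ∂μ := by
  have hcomb : ∀ ρ ∈ S, ∀ ρ' ∈ S, ∀ c : ℝ, ρ + c • ρ' ∈ S := hS.comb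
  let S' : Submodule ℝ (Form (ES d) X 2) :=
    { carrier := S
      add_mem' := fun {a b} ha hb => by
        have h1 := hcomb a ha b hb 1
        rwa [one_smul] at h1
      zero_mem' := hS.zero
      smul_mem' := fun c a ha => by
        have h1 := hcomb 0 hS.zero a ha c
        rwa [zero_add] at h1 }
  have key := Pool.Agent.K7.H28.SM.transport (d := d) (m := m) (X := X) hd
    (vol := toTop vol) (vol_of hvol) (σ := σ) ((smooth_iff σ).1 hσ.smooth) S'
    (fun ρ hρ => (smooth_iff ρ).1 (hS.closed ρ hρ).smooth) (fun ρ hρ => hS.rank ρ hρ)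
  constructor
  · rintro ⟨ρ, hρ, hsym⟩
    exact key.1 ⟨ρ, hρ, fun x e he => hsym.pos x e he⟩
  · intro h
    obtain ⟨ρ, hρ, hpos⟩ := key.2 h
    refine ⟨ρ, hρ, closed_add hσ (hS.closed ρ hρ), fun x v hv => ?_, fun x e he => hpos x e he⟩
    exact R772.PosTop.nondeg (d := d) (m := m) (X := X) hd (vol_of hvol) (hpos x) v hv

end

end Pool.Agent.K7.H28.SMP
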