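import Pool.Agent.R772.Dual

/-!
The top power of the sum of a two-form and of a two-form of rank two.
-/

set_option autoImplicit false

open Set Filter Topology

noncomputable section

namespace Pool.Agent.K7.H28.SM

open Pool.Agent.R772

variable {V : Type} [AddCommGroup V] [Module ℝ V] [TopologicalSpace V]

/-- two-forms of rank at most two -/
def Rk2 (b : V [⋀^Fin 2]→L[ℝ] ℝ) : Prop :=
  ∃ l k : V →L[ℝ] ℝ, ∀ v w, b ![v, w] = l v * k w - l w * k v

theorem Rk2.plucker {b : V [⋀^Fin 2]→L[ℝ] ℝ} (h : Rk2 b) (x y z w : V) :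
    b ![x, y] * b ![z, w] + b ![x, z] * b ![w, y] + b ![x, w] * b ![y, z] = 0 := by
  obtain ⟨l, k, h⟩ := h
  simp only [h]
  ring

/-- wedge products with two equal factors of rank two vanish -/
theorem wedge_rk2 {n : ℕ} {b : V [⋀^Fin 2]→L[ℝ] ℝ} (h : Rk2 b)
    (s : Fin n → V [⋀^Fin 2]→L[ℝ] ℝ) {i j : Fin n} (hij : i ≠ j) (hi : s i = b) (hj : s j = b)
    (e : Fin n × Fin 2 → V) : wedge s e = 0 := by
  classical
  -- the rest of the product
  set rest : Equiv.Perm (Fin n × Fin 2) → ℝ := fun π =>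
    ∏ l ∈ (Finset.univ.erase i).erase j, s l ![e (π (l, 0)), e (π (l, 1))] with hrest
  set G : Fin n × Fin 2 → Fin n × Fin 2 → Fin n × Fin 2 → Fin n × Fin 2 →
      Equiv.Perm (Fin n × Fin 2) → ℝ := fun a a' c c' π =>
    ((Equiv.Perm.sign π : ℤ) : ℝ) * (b ![e (π a), e (π a')] *
      b ![e (π c), e (π c')] * rest π) with hG
  have hprod : ∀ π : Equiv.Perm (Fin n × Fin 2),
      ((Equiv.Perm.sign π : ℤ) : ℝ) * ∏ l, s l ![e (π (l, 0)), e (π (l, 1))] =
        G (i, 0) (i, 1) (j, 0) (j, 1) π := by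
    intro π
    rw [← Finset.mul_prod_erase Finset.univ _ (Finset.mem_univ i),
      ← Finset.mul_prod_erase (Finset.univ.erase i) _
        (Finset.mem_erase.2 ⟨hij.symm, Finset.mem_univ j⟩), hi, hj]
    simp only [hG, hrest]
    ring
  have h1 : wedge s e = ∑ π, G (i, 0) (i, 1) (j, 0) (j, 1) π := by
    unfold wedge
    exact Finset.sum_congr rfl fun π _ => hprod π
  have hne1 : ((i, 1) : Fin n × Fin 2) ≠ (j, 0) := fun h => hij (congrArg Prod.fst h)
  have hne2 : ((i, 1) : Fin n × Fin 2) ≠ (j, 1) := fun h => hij (congrArg Prod.fst h)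
  have h01 : (0 : Fin 2) ≠ 1 := by decide
  have hne3 : ((j, 0) : Fin n × Fin 2) ≠ (j, 1) := fun h => h01 (congrArg Prod.snd h)
  have hne4 : ((i, 0) : Fin n × Fin 2) ≠ (j, 0) := fun h => hij (congrArg Prod.fst h)
  have hne5 : ((i, 0) : Fin n × Fin 2) ≠ (j, 1) := fun h => hij (congrArg Prod.fst h)
  have hne6 : ((i, 0) : Fin n × Fin 2) ≠ (i, 1) := fun h => h01 (congrArg Prod.snd h)
  -- the three-cycle
  set R : Equiv.Perm (Fin n × Fin 2) :=
    Equiv.swap (i, 1) (j, 0) * Equiv.swap (j, 0) (j, 1) with hR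
  have hsR : Equiv.Perm.sign R = 1 := by
    rw [hR, Equiv.Perm.sign_mul, Equiv.Perm.sign_swap hne1, Equiv.Perm.sign_swap hne3]
    rfl
  have R0 : R (i, 0) = (i, 0) := by
    rw [hR, Equiv.Perm.mul_apply, Equiv.swap_apply_of_ne_of_ne hne4 hne5,
      Equiv.swap_apply_of_ne_of_ne hne6 hne4]
  have R1 : R (i, 1) = (j, 0) := by
    rw [hR, Equiv.Perm.mul_apply, Equiv.swap_apply_of_ne_of_ne hne1 hne2,
      Equiv.swap_apply_left]
  have R2 : R (j, 0) = (j, 1) := by
    rw [hR, Equiv.Perm.mul_apply, Equiv.swap_apply_left,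
      Equiv.swap_apply_of_ne_of_ne hne2.symm hne3.symm]
  have R3 : R (j, 1) = (i, 1) := by
    rw [hR, Equiv.Perm.mul_apply, Equiv.swap_apply_right, Equiv.swap_apply_right]
  have Rl : ∀ l : Fin n, l ≠ i → l ≠ j → ∀ c : Fin 2, R (l, c) = (l, c) := by
    intro l hli hlj c
    have k1 : ((l, c) : Fin n × Fin 2) ≠ (i, 1) := fun h => hli (congrArg Prod.fst h)
    have k2 : ((l, c) : Fin n × Fin 2) ≠ (j, 0) := fun h => hlj (congrArg Prod.fst h)
    have k3 : ((l, c) : Fin n × Fin 2) ≠ (j, 1) := fun h => hlj (congrArg Prod.fst h)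
    rw [hR, Equiv.Perm.mul_apply, Equiv.swap_apply_of_ne_of_ne k2 k3,
      Equiv.swap_apply_of_ne_of_ne k1 k2]
  have hrestR : ∀ π, rest (π * R) = rest π := by
    intro π
    simp only [hrest]
    refine Finset.prod_congr rfl fun l hl => ?_
    rw [Finset.mem_erase, Finset.mem_erase] at hl
    have a1 : ∀ c : Fin 2, (π * R) (l, c) = π (l, c) := by
      intro c
      change π (R (l, c)) = _
      rw [Rl l hl.2.1 hl.1]
    rw [a1, a1]
  have hsign : ∀ π : Equiv.Perm (Fin n × Fin 2), Equiv.Perm.sign (π * R) = Equiv.Perm.sign π := by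
    intro π
    rw [Equiv.Perm.sign_mul, hsR, mul_one]
  have hshift : ∀ a a' c c' : Fin n × Fin 2, ∑ π, G a a' c c' π =
      ∑ π, G (R a) (R a') (R c) (R c') π := by
    intro a a' c c'
    rw [← Equiv.sum_comp (Equiv.mulRight R) (fun π => G a a' c c' π)]
    refine Finset.sum_congr rfl fun π _ => ?_
    have a1 : (Equiv.mulRight R) π = π * R := rfl
    rw [a1]
    simp only [hG, hsign, hrestR, Equiv.Perm.mul_apply]
  have h2 : wedge s e = ∑ π, G (i, 0) (j, 0) (j, 1) (i, 1) π := by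
    rw [h1, hshift, R0, R1, R2, R3]
  have h3 : wedge s e = ∑ π, G (i, 0) (j, 1) (i, 1) (j, 0) π := by
    rw [h2, hshift, R0, R1, R2, R3]
  have h4 : wedge s e + wedge s e + wedge s e = 0 := by
    nth_rewrite 1 [h1]
    nth_rewrite 1 [h2]
    rw [h3, ← Finset.sum_add_distrib, ← Finset.sum_add_distrib]
    refine Finset.sum_eq_zero fun π _ => ?_
    simp only [hG]
    have h5 := h.plucker (e (π (i, 0))) (e (π (i, 1))) (e (π (j, 0))) (e (π (j, 1)))
    have h6 : ∀ A B C D E' F' S T : ℝ, A * B + C * D + E' * F' = 0 →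
        S * (A * B * T) + S * (C * D * T) + S * (E' * F' * T) = 0 := by
      intro A B C D E' F' S T h
      have : S * (A * B * T) + S * (C * D * T) + S * (E' * F' * T) =
        S * T * (A * B + C * D + E' * F') := by ring
      rw [this, h, mul_zero]
    exact h6 _ _ _ _ _ _ _ _ h5
  linarith

end Pool.Agent.K7.H28.SM
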