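import Pool.Agent.R772.PubK

/-!
Linear spaces of closed two-forms of rank two: the definitions used in the statement.
-/

set_option autoImplicit false

open Set Filter Topology MeasureTheory
open scoped Manifold ContDiff

noncomputable section

namespace Pool.Agent.K7.H28.SMP

open Pool.Agent.Y501.SYP
open Pool.Agent.R772.SYK

variable {V : Type} [NormedAddCommGroup V] [NormedSpace ℝ V]
  {X : Type} [TopologicalSpace X] [ChartedSpace V X]

open Classical in
/-- the quotient, at `x`, of the wedge product `s 0 ∧ ⋯ ∧ s m` and of the volume form, which does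
not depend on the positive frame used to compute it -/
def dens {m : ℕ} (vol : TopForm V X m) (x : X) (s : Fin (m + 1) → Cov V x) : ℝ :=
  if h : ∃ f : Fam V m x, 0 < vol x f then wedge s h.choose / vol x h.choose else 0

/-- the density of `σ ^ (m + 1)` -/
def topDens {m : ℕ} (vol : TopForm V X m) (σ : Form V X 2) (x : X) : ℝ :=
  dens vol x (fun _ : Fin (m + 1) => σ x)

/-- the density of `ρ ∧ σ ^ m` -/
def mixDens {m : ℕ} (vol : TopForm V X m) (σ ρ : Form V X 2) (x : X) : ℝ :=
  dens vol x (Fin.cons (ρ x) (fun _ : Fin m => σ x))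

/-- the form `ρ` is decomposable at every point, that is, its rank is at most two -/
def RankTwo (ρ : Form V X 2) : Prop :=
  ∀ x : X, ∃ l k : TangentSpace 𝓘(ℝ, V) x →L[ℝ] ℝ, ∀ v w : TangentSpace 𝓘(ℝ, V) x,
    ρ x ![v, w] = l v * k w - l w * k v

/-- linear spaces of closed two-forms of rank at most two -/
structure IsSpace (S : Set (Form V X 2)) : Prop where
  zero : (fun _ => 0) ∈ S
  comb : ∀ ρ ∈ S, ∀ ρ' ∈ S, ∀ c : ℝ, comb ρ c ρ' ∈ S
  closed : ∀ ρ ∈ S, IsClosed2 ρ
  rank : ∀ ρ ∈ S, RankTwo ρ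

/-- the measure `μ` annihilates the densities of the forms `ρ ∧ σ ^ m`, for `ρ` in `S` -/
def Annihilates [MeasurableSpace X] {m : ℕ} (μ : Measure X) (vol : TopForm V X m)
    (σ : Form V X 2) (S : Set (Form V X 2)) : Prop :=
  ∀ ρ ∈ S, ∫ x, mixDens vol σ ρ x ∂μ = 0

end Pool.Agent.K7.H28.SMP
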